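import Pool.Agent.Y594.NT.Stm2
import Pool.Agent.Y349.NT2.USum
import Pool.Agent.H705R2.ABC.Fac

/-!
# NT2-KSUM: the sum of the reciprocals of the radicals of all products
-/

set_option autoImplicit false

namespace Pool.Agent.Y87.NT2

open Finset Pool.Agent.H785R2.ABC

theorem ksum : Pool.Agent.Y594.NT.S_KSUM := by
  intro k δ hδ
  have hk0 : (0 : ℝ) ≤ k := Nat.cast_nonneg k
  set ε : ℝ := δ / (2 * ((k : ℝ) + 1)) with hε
  have hε0 : 0 < ε := by positivity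
  obtain ⟨D, hD, hfac⟩ := Pool.Agent.H705R2.ABC.stmtFac k ε hε0
  obtain ⟨C, hC, hus⟩ := Pool.Agent.Y349.NT2.usum ε hε0
  refine ⟨D * C, by positivity, fun U hU => ?_⟩
  have hU1 : (1 : ℝ) ≤ U := by exact_mod_cast hU
  have hU0 : (0 : ℝ) < U := by linarith
  have hmaps : ∀ w ∈ Fintype.piFinset (fun _ : Fin k => Icc 1 U), ∏ i, w i ∈ Icc 1 (U ^ k) := by
    intro w hw
    rw [Fintype.mem_piFinset] at hw
    rw [mem_Icc]
    constructor
    · exact Nat.succ_le_of_lt (Finset.prod_pos fun i _ => (mem_Icc.1 (hw i)).1)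
    · calc ∏ i, w i ≤ ∏ _i : Fin k, U := Finset.prod_le_prod' fun i _ => (mem_Icc.1 (hw i)).2
        _ = U ^ k := by simp
  rw [← Finset.sum_fiberwise_of_maps_to hmaps]
  have h1 : ∀ n ∈ Icc 1 (U ^ k),
      ∑ w ∈ (Fintype.piFinset (fun _ : Fin k => Icc 1 U)).filter (fun w => ∏ i, w i = n),
        1 / (rad (∏ i, w i) : ℝ) ≤ D * (U : ℝ) ^ δ * ((n : ℝ) ^ (-ε) / (rad n : ℝ)) := by
    intro n hn
    rw [mem_Icc] at hn
    have hn0 : (0 : ℝ) < n := by exact_mod_cast hn.1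
    have h2 : ∑ w ∈ (Fintype.piFinset (fun _ : Fin k => Icc 1 U)).filter
        (fun w => ∏ i, w i = n), 1 / (rad (∏ i, w i) : ℝ) =
        ((Fintype.piFinset (fun _ : Fin k => Icc 1 U)).filter
          (fun w => ∏ i, w i = n)).card * (1 / (rad n : ℝ)) := by
      rw [Finset.sum_congr rfl (g := fun _ => 1 / (rad n : ℝ)) (fun w hw => by
        rw [(mem_filter.1 hw).2]), sum_const, nsmul_eq_mul]
    rw [h2]
    have h3 := hfac n hn.1 ((Fintype.piFinset (fun _ : Fin k => Icc 1 U)).filter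
      (fun w => ∏ i, w i = n)) (fun w hw => (mem_filter.1 hw).2)
    have h4 : (n : ℝ) ^ ε ≤ (U : ℝ) ^ δ * (n : ℝ) ^ (-ε) := by
      have h5 : (n : ℝ) ^ ε = (n : ℝ) ^ (2 * ε) * (n : ℝ) ^ (-ε) := by
        rw [← Real.rpow_add hn0]
        congr 1
        ring
      rw [h5]
      have h6 : (n : ℝ) ≤ (U : ℝ) ^ (k : ℝ) := by
        rw [Real.rpow_natCast]
        exact_mod_cast hn.2
      have h7 : (n : ℝ) ^ (2 * ε) ≤ (U : ℝ) ^ δ := by
        calc (n : ℝ) ^ (2 * ε) ≤ ((U : ℝ) ^ (k : ℝ)) ^ (2 * ε) := by gcongr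
          _ = (U : ℝ) ^ ((k : ℝ) * (2 * ε)) := by rw [← Real.rpow_mul hU0.le]
          _ ≤ (U : ℝ) ^ δ := by
              apply Real.rpow_le_rpow_of_exponent_le hU1
              rw [hε, show (k : ℝ) * (2 * (δ / (2 * ((k : ℝ) + 1)))) = (k * δ) / (k + 1) by
                field_simp, div_le_iff₀ (by positivity)]
              nlinarith
      have h8 : (0 : ℝ) ≤ (n : ℝ) ^ (-ε) := Real.rpow_nonneg hn0.le _
      gcongr
    calc (((Fintype.piFinset (fun _ : Fin k => Icc 1 U)).filter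
          (fun w => ∏ i, w i = n)).card : ℝ) * (1 / (rad n : ℝ))
        ≤ (D * (n : ℝ) ^ ε) * (1 / (rad n : ℝ)) := by gcongr
      _ ≤ (D * ((U : ℝ) ^ δ * (n : ℝ) ^ (-ε))) * (1 / (rad n : ℝ)) := by gcongr
      _ = _ := by ring
  refine (sum_le_sum h1).trans ?_
  rw [← mul_sum]
  have h2 := hus (U ^ k)
  calc D * (U : ℝ) ^ δ * ∑ n ∈ Icc 1 (U ^ k), (n : ℝ) ^ (-ε) / (rad n : ℝ)
      ≤ D * (U : ℝ) ^ δ * C := by gcongr
    _ = _ := by ring

end Pool.Agent.Y87.NT2
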